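import Pool.Agent.Lib.MP_6b2d39_agUn.Early

/-!
The early phase (as `Un/Early.lean`); the slopes of the demands do not become smaller.
-/

set_option autoImplicit false

namespace Pool.Agent.Lib.MP_6b2d39_agUe

open Pool.Agent.Lib.MP_6b2d39_agArr Pool.Agent.Lib.MP_6b2d39_agUn

variable {ι : Type} [DecidableEq ι]

private theorem ms_insert {m : ι → ℕ} {J : Finset ι} {j : ι} (hj : j ∉ J) :
    ms m (insert j J) = ((m j * (m j + 1) / 2 : ℕ) : ℤ) + ms m J := by
  unfold ms
  rw [Finset.sum_insert hj]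

private theorem ms_mono {m : ι → ℕ} {J J' : Finset ι} (h : J ⊆ J') : ms m J ≤ ms m J' :=
  Finset.sum_le_sum_of_subset_of_nonneg h fun _ _ _ => by positivity

/-- one point of the early phase -/
private theorem early_one {R : ℕ → ℤ} {m : ι → ℕ} {v0 : ℤ} {B z Q μ : ℕ} (hQ : 8 ≤ Q) (hz : 1 ≤ z)
    (hB : 1 ≤ B) {J P : Finset ι} {j : ι} (hj : j ∉ J) (hjP : j ∉ P) (hm : m j ≤ μ)
    (hJ : ((B : ℤ) + μ) * z ≤ v0 + ms m J) {y : ℕ} {D : ℕ → ℤ}
    (h : Inv R m v0 B z Q (insert j J) y D) :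
    ∃ (y' : ℕ) (D' : ℕ → ℤ), y' ≤ y ∧ Inv R m v0 B z Q J y' D' ∧
      (∀ c, c + 1 < y' → D c - D (c + 1) ≤ D' c - D' (c + 1)) ∧
      (Cert m P y' D' → Cert m (insert j P) y D) := by
  have hzz : (1 : ℤ) ≤ z := by exact_mod_cast hz
  have hQQ : (8 : ℤ) ≤ Q := by exact_mod_cast hQ
  have hy := h.e2
  -- the demands decrease and are at most `z`
  have hstep : ∀ c, c + 1 < y → D (c + 1) + 1 ≤ D c := by
    intro c hc
    have := h.e1 c hc
    linarith
  have hle : ∀ c, c < y → D c ≤ z := by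
    intro c
    induction c with
    | zero => intro _; exact h.e4
    | succ c ih =>
      intro hc
      have h1 := ih (by omega)
      have h2 := hstep c hc
      linarith
  have hpos : ∀ k, ∀ c, c + k + 1 = y → 1 ≤ D c := by
    intro k
    induction k with
    | zero =>
      intro c hc
      have h1 : c = y - 1 := by omega
      rw [h1]
      exact h.e3
    | succ k ih =>
      intro c hc
      have h1 := ih (c + 1) (by omega)
      have h2 := hstep c (by omega)
      linarith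
  have hpos' : ∀ c < y, 1 ≤ D c := fun c hc => hpos (y - 1 - c) c (by omega)
  have hbig : ∀ (n : ℕ) (E : ℕ → ℤ), (∀ c < n, E c ≤ z) →
      ((B : ℤ) + μ) * z ≤ ∑ c ∈ Finset.range n, E c → B + μ ≤ n := by
    intro n E hE hs
    have h1 : ∑ c ∈ Finset.range n, E c ≤ n * z := by
      have := Finset.sum_le_card_nsmul (Finset.range n) E z fun c hc => hE c (Finset.mem_range.1 hc)
      rwa [Finset.card_range, nsmul_eq_mul] at this
    have h2 : ((B : ℤ) + μ) * z ≤ n * z := hs.trans h1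
    have h3 : (B : ℤ) + μ ≤ n := le_of_mul_le_mul_right h2 (by linarith)
    exact_mod_cast h3
  have hmass : 0 ≤ ((m j * (m j + 1) / 2 : ℕ) : ℤ) := by positivity
  have hyB : B + μ ≤ y := by
    refine hbig y D hle ?_
    rw [h.e5, ms_insert hj]
    linarith
  obtain ⟨L, ρ, hLL, hρ, hinj, hanti, hfin, hgt, hfree, hle', hsum⟩ :=
    greedy (m := m j) (L' := y) (by omega) D hpos' hstep
  have hu0 : ∀ b, (0 : ℤ) ≤ ((m j - ρ b : ℕ) : ℤ) := fun b => by positivity
  have hule : ∀ b, ((m j - ρ b : ℕ) : ℤ) ≤ m j := by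
    intro b
    have : m j - ρ b ≤ m j := Nat.sub_le _ _
    exact_mod_cast this
  -- the sum of the new demands
  have hsum' : ∑ c ∈ Finset.range L, (D c - ((m j - ρ c : ℕ) : ℤ)) = v0 + ms m J := by
    have h1 : ∑ b ∈ Finset.range y, (D b - ((m j - ρ b : ℕ) : ℤ)) =
        ∑ b ∈ Finset.range L, (D b - ((m j - ρ b : ℕ) : ℤ)) +
          ∑ b ∈ Finset.Ico L y, (D b - ((m j - ρ b : ℕ) : ℤ)) := by
      rw [Finset.range_eq_Ico, Finset.range_eq_Ico, Finset.sum_Ico_consecutive _ (by omega) hLL]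
    have h2 : ∑ b ∈ Finset.Ico L y, (D b - ((m j - ρ b : ℕ) : ℤ)) = 0 := by
      refine Finset.sum_eq_zero fun b hb => ?_
      rw [Finset.mem_Ico] at hb
      rw [hfin b hb.1 hb.2]
      ring
    rw [h2, add_zero] at h1
    rw [← h1, Finset.sum_sub_distrib, h.e5, hsum, ms_insert hj]
    ring
  have hLB : B + μ ≤ L := by
    refine hbig L (fun c => D c - ((m j - ρ c : ℕ) : ℤ)) (fun c hc => ?_) ?_
    · have h1 := hle c (by omega)
      have h2 := hu0 c
      try dsimp only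
      linarith
    · rw [hsum']
      exact hJ
  refine ⟨L, fun c => D c - ((m j - ρ c : ℕ) : ℤ), hLL, ⟨?_, ?_, by omega, ?_, ?_, hsum'⟩, ?_, ?_⟩
  · intro c hc
    have h1 := hfree c (by omega) (by omega)
    have h2 : m j - ρ c = 0 := by omega
    try dsimp only
    rw [h2, h.e0 c hc]
    simp
  · intro c hc
    have h1 := h.e1 c (by omega)
    have h2 := hanti c (c + 1) (by omega) hc
    have h3 : ((m j - ρ c : ℕ) : ℤ) ≤ ((m j - ρ (c + 1) : ℕ) : ℤ) := by
      have : m j - ρ c ≤ m j - ρ (c + 1) := by omega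
      exact_mod_cast this
    try dsimp only
    linarith
  · have h1 := hgt (L - 1) (by omega)
    have h2 := hule (L - 1)
    try dsimp only
    linarith
  · have h1 := h.e4
    have h2 := hu0 0
    try dsimp only
    linarith
  · intro c hc
    have h2 := hanti c (c + 1) (by omega) hc
    have h3 : ((m j - ρ c : ℕ) : ℤ) ≤ ((m j - ρ (c + 1) : ℕ) : ℤ) := by
      have : m j - ρ c ≤ m j - ρ (c + 1) := by omega
      exact_mod_cast this
    try dsimp only
    linarith
  · intro hC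
    exact cert_stepA hjP hLL hC ρ hρ hinj hanti (fun b _ => by simp) fun b h1 h2 => (hfin b h1 h2).le

/-- U40 (EARLY PHASE): `y z ≥ ∑ D = v0 + mass ≥ (B + μ) z`, so `m j ≤ y` for `j ∈ O`; `greedy`,
`cert_stepA`; the load of `j` is `0` on the rows `< B`. -/
theorem early_e {R : ℕ → ℤ} {m : ι → ℕ} {v0 : ℤ} {B z Q μ : ℕ} (hQ : 8 ≤ Q) (hz : 1 ≤ z)
    (hB : 1 ≤ B) {J Z : Finset ι} (hJ : ((B : ℤ) + μ) * z ≤ v0 + ms m J) :
    ∀ O : Finset ι, Disjoint (J ∪ Z) O → (∀ i ∈ O, m i ≤ μ) → ∀ (y : ℕ) (D : ℕ → ℤ),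
      Inv R m v0 B z Q (J ∪ O) y D →
      ∃ (y' : ℕ) (D' : ℕ → ℤ), y' ≤ y ∧ Inv R m v0 B z Q J y' D' ∧
        (∀ c, c + 1 < y' → D c - D (c + 1) ≤ D' c - D' (c + 1)) ∧
        (Cert m (J ∪ Z) y' D' → Cert m (J ∪ O ∪ Z) y D) := by
  intro O
  induction O using Finset.induction_on with
  | empty =>
    intro _ _ y D h
    rw [Finset.union_empty] at h ⊢
    exact ⟨y, D, le_rfl, h, fun _ _ => le_rfl, id⟩
  | insert j O hjO ih =>
    intro hdis hm y D h
    rw [Finset.disjoint_insert_right] at hdis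
    have hjJ : j ∉ J := fun hh => hdis.1 (Finset.mem_union_left _ hh)
    have hjZ : j ∉ Z := fun hh => hdis.1 (Finset.mem_union_right _ hh)
    have hj : j ∉ J ∪ O := by
      rw [Finset.mem_union]
      rintro (hh | hh)
      · exact hjJ hh
      · exact hjO hh
    have hjP : j ∉ J ∪ O ∪ Z := by
      rw [Finset.mem_union]
      rintro (hh | hh)
      · exact hj hh
      · exact hjZ hh
    have hmass : ms m J ≤ ms m (J ∪ O) := ms_mono Finset.subset_union_left
    rw [Finset.union_insert] at h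
    obtain ⟨y1, D1, hy1, hI1, hS1, hC1⟩ := early_one (P := J ∪ O ∪ Z) hQ hz hB hj hjP
      (hm j (Finset.mem_insert_self _ _)) (by linarith : ((B : ℤ) + μ) * z ≤ v0 + ms m (J ∪ O)) h
    obtain ⟨y2, D2, hy2, hI2, hS2, hC2⟩ := ih hdis.2 (fun i hi => hm i (Finset.mem_insert_of_mem hi))
      y1 D1 hI1
    refine ⟨y2, D2, hy2.trans hy1, hI2, fun c hc => (hS1 c (by omega)).trans (hS2 c hc),
      fun hC => ?_⟩
    rw [Finset.union_insert, Finset.insert_union]
    exact hC1 (hC2 hC)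

end Pool.Agent.Lib.MP_6b2d39_agUe
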