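import Mathlib

set_option autoImplicit false

namespace Pool.Agent.Lib.MP_6b2d39_agUe

/-- E3. a subset `O'` of `O` with the largest cardinality among those with `∑ f ≤ t`
(`Finset.exists_max_image` on the filtered powerset), or induction on `O` -/
theorem sub_ex {ι : Type} [DecidableEq ι] (f : ι → ℤ) (O : Finset ι) {t K : ℤ} (ht : 0 ≤ t)
    (hf : ∀ i ∈ O, f i ≤ K) :
    ∃ O' ⊆ O, ∑ i ∈ O', f i ≤ t ∧ (O' = O ∨ t < ∑ i ∈ O', f i + K) := by
  have hne : (O.powerset.filter fun s => ∑ i ∈ s, f i ≤ t).Nonempty :=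
    ⟨∅, by simp [ht]⟩
  obtain ⟨O', hO', hmax⟩ := Finset.exists_max_image _ Finset.card hne
  rw [Finset.mem_filter, Finset.mem_powerset] at hO'
  refine ⟨O', hO'.1, hO'.2, ?_⟩
  by_cases h : O' = O
  · exact Or.inl h
  right
  obtain ⟨i, hiO, hi⟩ : ∃ i ∈ O, i ∉ O' := by
    by_contra hc
    push Not at hc
    exact h (Finset.Subset.antisymm hO'.1 hc)
  have hsum : ∑ j ∈ insert i O', f j = f i + ∑ j ∈ O', f j := Finset.sum_insert hi
  have hgt : t < ∑ j ∈ insert i O', f j := by
    by_contra hc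
    push Not at hc
    have hm : insert i O' ∈ O.powerset.filter fun s => ∑ i ∈ s, f i ≤ t := by
      rw [Finset.mem_filter, Finset.mem_powerset]
      exact ⟨Finset.insert_subset hiO hO'.1, hc⟩
    have h1 := hmax _ hm
    rw [Finset.card_insert_of_notMem hi] at h1
    omega
  have hK := hf i hiO
  rw [hsum] at hgt
  linarith

end Pool.Agent.Lib.MP_6b2d39_agUe
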