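import Pool.Agent.Lib.MP_6b2d39_agUe.Fill
import Pool.Agent.Lib.MP_6b2d39_agUe.Sub
import Pool.Agent.Lib.MP_6b2d39_agUe.EarlyE
import Pool.Agent.Lib.MP_6b2d39_agUn.OpsZ

set_option autoImplicit false

namespace Pool.Agent.Lib.MP_6b2d39_agUe

open Pool.Agent.Lib.MP_6b2d39_agArr Pool.Agent.Lib.MP_6b2d39_agUn

/-- E4 (EXACT ARRANGEMENT, TWO SCALES). `sub_ex` with `f i = m i (m i + 1) / 2 ≤ M ^ 2`,
`t = ∑ R - (A + 2 + M) z`: a subset `O'` of `O` with `ms m O' ≤ t` and `∑ R ≤ ms m J + ms m O'`.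
`early_e` with `B = A + 2`, `μ = M`, `Z = ∅`, `v0 = ∑ R - ms m J - ms m O'`: rows `y'`, `D'`;
`y' z ≥ ∑ D' = v0 + ms m J ≥ (A + 2 + M) z`, so `y' ≥ 2 A + 2`; `fill_e` for `J`, `D'`
(`D' c = R c` for `c < A + 2`, the slopes of `D'` are at least those of `R`, `y' ≤ T`); `cert_mono`
from `J ∪ O'` to `J ∪ O`. -/
theorem ar_e {ι : Type} [DecidableEq ι] {M A z Q T : ℕ} {R : ℕ → ℤ} {m : ι → ℕ} {J O : Finset ι}
    (hA : 1 ≤ A) (hAM : A ≤ M) (hQ8 : 8 ≤ Q) (hQ : 9 * A ≤ Q) (hz : 1 ≤ z) (hT : 1 ≤ T)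
    (hR0 : R 0 ≤ z) (hR1 : ∀ c < A, R c - R (c + 1) = Q)
    (hR2 : ∀ c, c + 2 < T → (Q : ℤ) ≤ R c - R (c + 1))
    (hR3 : ∀ c, c + 1 < T → (Q : ℤ) ≤ 2 * (R c - R (c + 1))) (hR4 : 1 ≤ R (T - 1))
    (hJO : Disjoint J O) (hJ : ∀ i ∈ J, m i ≤ A) (hO : ∀ i ∈ O, m i ≤ M)
    (hs : ∑ c ∈ Finset.range T, R c ≤ ms m J + ms m O)
    (hm1 : ((A : ℤ) + 2 + M) * z + M ^ 2 ≤ ms m J)
    (hm2 : ((A : ℤ) + 2 + M) * z ≤ ∑ c ∈ Finset.range T, R c) : Cert m (J ∪ O) T R := by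
  have hz0 : (0 : ℤ) < z := by exact_mod_cast hz
  have hf : ∀ i ∈ O, ((m i * (m i + 1) / 2 : ℕ) : ℤ) ≤ (M : ℤ) ^ 2 := by
    intro i hi
    have h1 : m i * (m i + 1) / 2 ≤ M ^ 2 := by
      have h2 := hO i hi
      have h3 : m i * (m i + 1) ≤ M ^ 2 * 2 := by
        have h4 : 1 ≤ M := hA.trans hAM
        nlinarith [Nat.mul_le_mul h2 h2, Nat.mul_le_mul h4 h2]
      exact Nat.div_le_of_le_mul (by linarith)
    exact_mod_cast h1
  obtain ⟨O', hO', hle, hor⟩ := sub_ex (fun i => ((m i * (m i + 1) / 2 : ℕ) : ℤ)) O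
    (t := ∑ c ∈ Finset.range T, R c - ((A : ℤ) + 2 + M) * z) (K := (M : ℤ) ^ 2)
    (by linarith) hf
  change ms m O' ≤ _ at hle
  change O' = O ∨ _ < ms m O' + _ at hor
  have hJO' : Disjoint J O' := hJO.mono_right hO'
  have hv : ∑ c ∈ Finset.range T, R c ≤ ms m J + ms m O' := by
    rcases hor with h | h
    · rw [h]
      exact hs
    · linarith
  have hms : ms m (J ∪ O') = ms m J + ms m O' := Finset.sum_union hJO'
  obtain ⟨y, D, hyT, hI, hS, hC⟩ := early_e (R := R) (m := m)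
    (v0 := ∑ c ∈ Finset.range T, R c - ms m J - ms m O') (B := A + 2) (z := z) (Q := Q) (μ := M)
    hQ8 hz (by omega) (J := J) (Z := ∅) (by push_cast; linarith) O'
    (by rw [Finset.union_empty]; exact hJO') (fun i hi => hO i (hO' hi)) T R
    ⟨fun _ _ => rfl, hR3, hT, hR4, hR0, by rw [hms]; ring⟩
  have hle' : ∀ c, c < y → D c ≤ z := by
    intro c
    induction c with
    | zero => intro _; exact hI.e4
    | succ c ih =>
      intro hc
      have h1 := ih (by omega)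
      have h2 := hI.e1 c hc
      have h3 : (0 : ℤ) ≤ Q := by positivity
      linarith
  have hy : A + 2 + M ≤ y := by
    have h1 : ∑ c ∈ Finset.range y, D c ≤ y * z := by
      have := Finset.sum_le_card_nsmul (Finset.range y) D z fun c hc => hle' c (Finset.mem_range.1 hc)
      rwa [Finset.card_range, nsmul_eq_mul] at this
    have h2 : ((A : ℤ) + 2 + M) * z ≤ y * z := by
      rw [hI.e5] at h1
      linarith
    have h3 : (A : ℤ) + 2 + M ≤ y := le_of_mul_le_mul_right h2 hz0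
    exact_mod_cast h3
  have hJC : Cert m J y D := by
    refine fill_e (A := A) (Q := Q) hA (by omega) (by omega) hJ (fun b hb => ?_) (fun b hb => ?_) ?_
      hI.e3 ?_
    · rw [hI.e0 b (by omega), hI.e0 (b + 1) (by omega)]
      exact hR1 b hb
    · exact (hR2 b (by omega)).trans (hS b (by omega))
    · have h1 := hI.e1 (y - 2) (by omega)
      have h2 : y - 2 + 1 = y - 1 := by omega
      rwa [h2] at h1
    · rw [hI.e5]
      linarith
  have h1 := hC (by rw [Finset.union_empty]; exact hJC)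
  rw [Finset.union_empty] at h1
  exact cert_mono (Finset.union_subset_union_right hO') (fun _ _ => le_rfl) h1

end Pool.Agent.Lib.MP_6b2d39_agUe
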