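import Pool.Agent.Lib.MP_6b2d39_agUe.EarlyE

set_option autoImplicit false

namespace Pool.Agent.Lib.MP_6b2d39_agUe

open Pool.Agent.Lib.MP_6b2d39_agArr Pool.Agent.Lib.MP_6b2d39_agUn

/-- M1 (the early phase, the big points in decreasing order). Strong induction on `O.card`: if
`O ≠ ∅` take `j ∈ O` with the largest `m j` (`Finset.exists_max_image`), `early_e` with `O := {j}`,
`J := J ∪ O.erase j`, `Z := ∅`, `μ := m j` (its hypothesis: `J ∪ O.filter (m i < m j)` is contained
in `J ∪ O.erase j`), then the induction hypothesis for `O.erase j` (for `j' ∈ O.erase j` the points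
`i` with `m i < m j' ≤ m j` are the same). -/
theorem big_m {ι : Type} [DecidableEq ι] {R : ℕ → ℤ} {m : ι → ℕ} {v0 : ℤ} {B z Q : ℕ}
    (hQ : 8 ≤ Q) (hz : 1 ≤ z) (hB : 1 ≤ B) {J : Finset ι} :
    ∀ O : Finset ι, Disjoint J O →
      (∀ j ∈ O, ((B : ℤ) + m j) * z ≤ v0 + ms m (J ∪ O.filter (fun i => m i < m j))) →
      ∀ (y : ℕ) (D : ℕ → ℤ), Inv R m v0 B z Q (J ∪ O) y D →
      ∃ (y' : ℕ) (D' : ℕ → ℤ), y' ≤ y ∧ Inv R m v0 B z Q J y' D' ∧
        (∀ c, c + 1 < y' → D c - D (c + 1) ≤ D' c - D' (c + 1)) ∧
        (Cert m J y' D' → Cert m (J ∪ O) y D) := by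
  intro O
  induction O using Finset.strongInduction with
  | H O ih =>
    intro hdis hbig y D hI
    rcases O.eq_empty_or_nonempty with rfl | hne
    · rw [Finset.union_empty] at hI ⊢
      exact ⟨y, D, le_rfl, hI, fun _ _ => le_rfl, id⟩
    · obtain ⟨j, hj, hmax⟩ := Finset.exists_max_image O m hne
      have hsub : J ∪ O.filter (fun i => m i < m j) ⊆ J ∪ O.erase j := by
        refine Finset.union_subset_union le_rfl fun i hi => ?_
        rw [Finset.mem_filter] at hi
        rw [Finset.mem_erase]
        refine ⟨?_, hi.1⟩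
        rintro rfl
        exact lt_irrefl _ hi.2
      have hms : ms m (J ∪ O.filter (fun i => m i < m j)) ≤ ms m (J ∪ O.erase j) :=
        Finset.sum_le_sum_of_subset_of_nonneg hsub fun _ _ _ => by positivity
      have hJ : ((B : ℤ) + m j) * z ≤ v0 + ms m (J ∪ O.erase j) := by
        have := hbig j hj
        linarith
      have hU : J ∪ O.erase j ∪ {j} = J ∪ O := by
        rw [Finset.union_assoc]
        congr 1
        rw [Finset.union_comm, ← Finset.insert_eq, Finset.insert_erase hj]
      have hjJ : j ∉ J := fun hh => (Finset.disjoint_left.1 hdis hh) hj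
      have hd1 : Disjoint (J ∪ O.erase j ∪ ∅) {j} := by
        rw [Finset.union_empty, Finset.disjoint_singleton_right, Finset.mem_union]
        rintro (hh | hh)
        · exact hjJ hh
        · exact Finset.notMem_erase j O hh
      obtain ⟨y1, D1, hy1, hI1, hS1, hC1⟩ := early_e (J := J ∪ O.erase j) (Z := ∅) hQ hz hB hJ {j}
        hd1 (fun i hi => by rw [Finset.mem_singleton] at hi; rw [hi]) y D (by rw [hU]; exact hI)
      obtain ⟨y2, D2, hy2, hI2, hS2, hC2⟩ := ih (O.erase j) (Finset.erase_ssubset hj)
        (hdis.mono_right (Finset.erase_subset j O)) (fun j' hj' => by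
          rw [Finset.mem_erase] at hj'
          have h1 := hbig j' hj'.2
          have h2 : (O.erase j).filter (fun i => m i < m j') = O.filter (fun i => m i < m j') := by
            ext i
            rw [Finset.mem_filter, Finset.mem_filter, Finset.mem_erase]
            constructor
            · rintro ⟨⟨_, ha⟩, hb⟩
              exact ⟨ha, hb⟩
            · rintro ⟨ha, hb⟩
              refine ⟨⟨?_, ha⟩, hb⟩
              rintro rfl
              exact absurd (hmax j' hj'.2) (not_le.2 hb)
          rw [h2]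
          exact h1) y1 D1 hI1
      refine ⟨y2, D2, hy2.trans hy1, hI2, fun c hc => (hS1 c (by omega)).trans (hS2 c hc),
        fun hC => ?_⟩
      have h3 := hC1 (by rw [Finset.union_empty]; exact hC2 hC)
      rw [Finset.union_empty, hU] at h3
      exact h3

end Pool.Agent.Lib.MP_6b2d39_agUe
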