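import Pool.Agent.Lib.MP_6b2d39_agUe.Fill
import Pool.Agent.Lib.MP_6b2d39_agUe.BigM

set_option autoImplicit false

namespace Pool.Agent.Lib.MP_6b2d39_agUe

open Pool.Agent.Lib.MP_6b2d39_agArr Pool.Agent.Lib.MP_6b2d39_agUn

/-- M2 (EXACT ARRANGEMENT, ALL SCALES; compare `ar_e` in `ArE.lean`). `big_m` with `B = A + 2`,
`v0 = ∑ R - ms m J - ms m O`, `-z ≤ v0 ≤ 0`, `y = T`, `D = R` (`Inv` is clear: `e1 = hR3`); then
`∑ D' = v0 + ms m J ≥ (2 A + 2) z` and `D' c ≤ z` (the demands decrease from `D' 0 ≤ z`), so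
`y' ≥ 2 A + 2`; `fill_e` for `J`, `D'`, `y'` (`D' c = R c` for `c < A + 2`, the slopes of `D'` are at
least those of `R`, `y' ≤ T`, `∑ D' ≤ ms m J`). -/
theorem ar_m {ι : Type} [DecidableEq ι] {A z Q T : ℕ} {R : ℕ → ℤ} {m : ι → ℕ} {J O : Finset ι}
    (hA : 1 ≤ A) (hQ8 : 8 ≤ Q) (hQ : 9 * A ≤ Q) (hz : 1 ≤ z) (hT : 1 ≤ T)
    (hR0 : R 0 ≤ z) (hR1 : ∀ c < A, R c - R (c + 1) = Q)
    (hR2 : ∀ c, c + 2 < T → (Q : ℤ) ≤ R c - R (c + 1))
    (hR3 : ∀ c, c + 1 < T → (Q : ℤ) ≤ 2 * (R c - R (c + 1))) (hR4 : 1 ≤ R (T - 1))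
    (hJO : Disjoint J O) (hJ : ∀ i ∈ J, m i ≤ A)
    (hs1 : ∑ c ∈ Finset.range T, R c ≤ ms m J + ms m O)
    (hs2 : ms m J + ms m O ≤ ∑ c ∈ Finset.range T, R c + z)
    (hm1 : (2 * (A : ℤ) + 3) * z ≤ ms m J)
    (hm2 : ∀ j ∈ O, ((A : ℤ) + 3 + m j) * z ≤ ms m (J ∪ O.filter (fun i => m i < m j))) :
    Cert m (J ∪ O) T R := by
  have hz0 : (0 : ℤ) < z := by exact_mod_cast hz
  have hms : ms m (J ∪ O) = ms m J + ms m O := Finset.sum_union hJO
  obtain ⟨y, D, hyT, hI, hS, hC⟩ := big_m (R := R) (m := m)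
    (v0 := ∑ c ∈ Finset.range T, R c - ms m J - ms m O) (B := A + 2) (z := z) (Q := Q)
    hQ8 hz (by omega) (J := J) O hJO (fun j hj => by
      have h1 := hm2 j hj
      have h2 : (((A + 2 : ℕ) : ℤ) + m j) * z = ((A : ℤ) + 3 + m j) * z - z := by
        push_cast
        ring
      rw [h2]
      linarith) T R
    ⟨fun _ _ => rfl, hR3, hT, hR4, hR0, by rw [hms]; ring⟩
  have hle' : ∀ c, c < y → D c ≤ z := by
    intro c
    induction c with
    | zero => intro _; exact hI.e4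
    | succ c ih =>
      intro hc
      have h1 := ih (by omega)
      have h2 := hI.e1 c hc
      have h3 : (0 : ℤ) ≤ Q := by positivity
      linarith
  have hy : 2 * A + 2 ≤ y := by
    have h1 : ∑ c ∈ Finset.range y, D c ≤ y * z := by
      have := Finset.sum_le_card_nsmul (Finset.range y) D z fun c hc => hle' c (Finset.mem_range.1 hc)
      rwa [Finset.card_range, nsmul_eq_mul] at this
    have h2 : (2 * (A : ℤ) + 2) * z ≤ y * z := by
      rw [hI.e5] at h1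
      have h4 : (2 * (A : ℤ) + 3) * z = (2 * (A : ℤ) + 2) * z + z := by ring
      linarith
    have h3 : 2 * (A : ℤ) + 2 ≤ y := le_of_mul_le_mul_right h2 hz0
    exact_mod_cast h3
  refine hC (fill_e (A := A) (Q := Q) hA (by omega) hy hJ (fun b hb => ?_) (fun b hb => ?_) ?_
      hI.e3 ?_)
  · rw [hI.e0 b (by omega), hI.e0 (b + 1) (by omega)]
    exact hR1 b hb
  · exact (hR2 b (by omega)).trans (hS b (by omega))
  · have h1 := hI.e1 (y - 2) (by omega)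
    have h2 : y - 2 + 1 = y - 1 := by omega
    rwa [h2] at h1
  · rw [hI.e5]
    linarith

end Pool.Agent.Lib.MP_6b2d39_agUe
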