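import Pool.Agent.Lib.MP_6b2d39_ag.Ranks
import Pool.Agent.Lib.MP_6b2d39_agArr.Defs

/-!
States of the points (old library) give an arrangement certificate.
-/

set_option autoImplicit false

namespace Pool.Agent.Lib.MP_6b2d39_agUe

open Pool.Agent.Lib.MP_6b2d39_agArr

private theorem rk_le_old {B : ℕ} {w : ℕ → ℕ} {v : ℕ → ℕ → ℕ}
    (hwv : ∀ t i, t < B → i ≤ t → ∀ b < B, ∀ b' < B,
      Pool.Agent.Lib.MP_6b2d39_ag.rk t i b < Pool.Agent.Lib.MP_6b2d39_ag.rk t i b' →
      w b + v t i * b < w b' + v t i * b') {t i b : ℕ} (ht : t < B) (hi : i ≤ t) (hb : b < B) :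
    rk B (fun c => (w c : ℤ)) ((v t i : ℕ) : ℤ) b ≤ Pool.Agent.Lib.MP_6b2d39_ag.rk t i b := by
  unfold rk
  calc ((Finset.range B).filter fun c => c ≠ b ∧
          (w c : ℤ) + ((v t i : ℕ) : ℤ) * c ≤ (w b : ℤ) + ((v t i : ℕ) : ℤ) * b).card
      ≤ (Finset.range (Pool.Agent.Lib.MP_6b2d39_ag.rk t i b)).card := by
        apply Finset.card_le_card_of_injOn (Pool.Agent.Lib.MP_6b2d39_ag.rk t i)
        · intro c hc
          have hc' := Finset.mem_filter.1 (Finset.mem_coe.1 hc)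
          have hcB : c < B := Finset.mem_range.1 hc'.1
          obtain ⟨hcb, hle⟩ := hc'.2
          rw [Finset.mem_coe, Finset.mem_range]
          by_contra hcon
          rcases lt_or_eq_of_le (not_lt.1 hcon) with h1 | h1
          · have h2 := hwv t i ht hi b hb c hcB h1
            have h3 : (w b : ℤ) + ((v t i : ℕ) : ℤ) * b < (w c : ℤ) + ((v t i : ℕ) : ℤ) * c := by
              exact_mod_cast h2
            omega
          · exact hcb (Pool.Agent.Lib.MP_6b2d39_ag.rk_inj hi h1.symm)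
        · intro c _ c' _ h
          exact Pool.Agent.Lib.MP_6b2d39_ag.rk_inj hi h
    _ = Pool.Agent.Lib.MP_6b2d39_ag.rk t i b := Finset.card_range _

/-- E1. `exists_weights B` gives `w`, `v`; take `e b = w b`, `p j = v (t j) (i j)`. For `j ∈ J` and
`b < B` the number `rk B e (p j) b` of the rows `c ≠ b` with `e c + p c ≤ e b + p b` is at most
`MP_6b2d39_ag.rk (t j) (i j) b`: such a row has `rk c < rk b` (otherwise `rk b < rk c` by `rk_inj`,
hence `w b + v b < w c + v c`), and `rk` is injective (`rk_inj`). -/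
theorem cert_of_states {ι : Type} {m : ι → ℕ} {J : Finset ι} {B : ℕ} {t i : ι → ℕ}
    (h : ∀ j ∈ J, t j < B ∧ i j ≤ t j) {D : ℕ → ℤ}
    (hD : ∀ b < B, D b ≤
      ((∑ j ∈ J, (m j - Pool.Agent.Lib.MP_6b2d39_ag.rk (t j) (i j) b) : ℕ) : ℤ)) :
    Cert m J B D := by
  obtain ⟨w, v, hwv⟩ := Pool.Agent.Lib.MP_6b2d39_ag.exists_weights B
  refine ⟨fun c => (w c : ℤ), fun j => ((v (t j) (i j) : ℕ) : ℤ), ?_⟩
  intro b hb
  refine (hD b hb).trans ?_
  push_cast
  apply Finset.sum_le_sum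
  intro j hj
  have h1 := rk_le_old hwv (h j hj).1 (h j hj).2 hb
  have h2 : m j - Pool.Agent.Lib.MP_6b2d39_ag.rk (t j) (i j) b ≤
      m j - rk B (fun c => (w c : ℤ)) ((v (t j) (i j) : ℕ) : ℤ) b := Nat.sub_le_sub_left h1 _
  exact_mod_cast h2

end Pool.Agent.Lib.MP_6b2d39_agUe
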