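import Pool.Agent.Lib.MP_6b2d39_agUn.RqL

set_option autoImplicit false

namespace Pool.Agent.Lib.MP_6b2d39_agUe

open Pool.Agent.Lib.MP_6b2d39_agUn

private theorem rowe_eq {q N b : ℕ} (h : q * (b + 2) ≤ N) :
    rq q N b = rq q N (b + 1) + q ^ 2 := by
  unfold rq
  have h1 : ∀ i ∈ Finset.range q,
      N - (q * b + i) = (N - (q * (b + 1) + i)) + q := by
    intro i hi
    rw [Finset.mem_range] at hi
    have e1 : q * (b + 2) = q * b + 2 * q := by ring
    have e2 : q * (b + 1) = q * b + q := by ring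
    rw [e2]
    rw [e1] at h
    omega
  rw [Finset.sum_congr rfl h1, Finset.sum_add_distrib, Finset.sum_const, Finset.card_range,
    smul_eq_mul, sq]

private theorem rowe_sumi (q : ℕ) : q ^ 2 ≤ 2 * ∑ i ∈ Finset.range q, (q - i) := by
  have h : ∀ n : ℕ, n ≤ q → 2 * q * n ≤ 2 * (∑ i ∈ Finset.range n, (q - i)) + n * n := by
    intro n
    induction n with
    | zero => intro _; simp
    | succ n ih =>
      intro hn
      have ih' := ih (by omega)
      rw [Finset.sum_range_succ]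
      obtain ⟨d, hd⟩ := Nat.exists_eq_add_of_le (show n ≤ q by omega)
      have e : q - n = d := by omega
      rw [e]
      subst hd
      nlinarith [ih']
  have h2 := h q le_rfl
  nlinarith [h2]

private theorem rowe_ge {q N b : ℕ} (h : q * (b + 1) < N) :
    rq q N (b + 1) + ∑ i ∈ Finset.range q, (q - i) ≤ rq q N b := by
  unfold rq
  rw [← Finset.sum_add_distrib]
  apply Finset.sum_le_sum
  intro i hi
  rw [Finset.mem_range] at hi
  have e2 : q * (b + 1) = q * b + q := by ring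
  rw [e2] at h ⊢
  omega

private theorem rowe_lt {q N : ℕ} (hq : 1 ≤ q) {c : ℕ} (hc : c < (N + q - 1) / q) :
    q * c < N := by
  have h1 : c + 1 ≤ (N + q - 1) / q := hc
  rw [Nat.le_div_iff_mul_le (by omega)] at h1
  have e : (c + 1) * q = q * c + q := by ring
  rw [e] at h1
  omega

/-- E5. (as in `Un/RowQ.lean`, private lemmas `rqz_eq`, `rqz_sumi`, `rqz_ge`):
`rq q N b = rq q N (b + 1) + q ^ 2` if `q (b + 2) ≤ N`, always true for `b + 2 < ⌈N / q⌉`;
for `b + 1 < ⌈N / q⌉` still `2 (rq q N b - rq q N (b + 1)) ≥ q ^ 2`; the last row is positive. -/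
theorem row_e {q N : ℕ} (hq : 1 ≤ q) (hN : 1 ≤ N) :
    (∀ c, q * (c + 2) ≤ N → (rq q N c : ℤ) - rq q N (c + 1) = ((q ^ 2 : ℕ) : ℤ)) ∧
      (∀ c, c + 2 < (N + q - 1) / q → (rq q N c : ℤ) - rq q N (c + 1) = ((q ^ 2 : ℕ) : ℤ)) ∧
      (∀ c, c + 1 < (N + q - 1) / q →
        ((q ^ 2 : ℕ) : ℤ) ≤ 2 * ((rq q N c : ℤ) - rq q N (c + 1))) ∧
      1 ≤ rq q N ((N + q - 1) / q - 1) ∧ 1 ≤ (N + q - 1) / q := by
  have hT : 1 ≤ (N + q - 1) / q := by
    rw [Nat.le_div_iff_mul_le (by omega)]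
    omega
  have hE : ∀ c, q * (c + 2) ≤ N → (rq q N c : ℤ) - rq q N (c + 1) = ((q ^ 2 : ℕ) : ℤ) := by
    intro c h1
    have h2 := rowe_eq h1
    rw [h2]
    push_cast
    ring
  refine ⟨hE, ?_, ?_, ?_, hT⟩
  · intro c hc
    exact hE c (rowe_lt hq hc).le
  · intro c hc
    have h2 := rowe_ge (rowe_lt hq hc)
    have h3 := rowe_sumi q
    have h4 : ((rq q N (c + 1) + ∑ i ∈ Finset.range q, (q - i) : ℕ) : ℤ) ≤ (rq q N c : ℕ) := by
      exact_mod_cast h2
    have h5 : ((q ^ 2 : ℕ) : ℤ) ≤ ((2 * ∑ i ∈ Finset.range q, (q - i) : ℕ) : ℤ) := by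
      exact_mod_cast h3
    rw [Nat.cast_add] at h4
    rw [Nat.cast_mul] at h5
    have h6 : ((2 : ℕ) : ℤ) = 2 := rfl
    rw [h6] at h5
    linarith
  · have h1 := rowe_lt (q := q) (N := N) hq (c := (N + q - 1) / q - 1) (by omega)
    unfold rq
    have h3 : N - (q * ((N + q - 1) / q - 1) + 0) ≤
        ∑ i ∈ Finset.range q, (N - (q * ((N + q - 1) / q - 1) + i)) :=
      Finset.single_le_sum (f := fun i => N - (q * ((N + q - 1) / q - 1) + i))
        (fun i _ => Nat.zero_le _) (Finset.mem_range.2 (by omega))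
    omega

end Pool.Agent.Lib.MP_6b2d39_agUe
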