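import Pool.Agent.Lib.MP_6b2d39_agUe.ArE
import Pool.Agent.Lib.MP_6b2d39_agUe.RowE
import Pool.Agent.Lib.MP_6b2d39_agUn.EmpT

set_option autoImplicit false

namespace Pool.Agent.Lib.MP_6b2d39_agUe

open Pool.Agent.Lib.MP_6b2d39_agArr Pool.Agent.Lib.MP_6b2d39_agUn Pool.Agent.Lib.MP_6b2d39_agNw
  Pool.Agent.Lib.MP_6b2d39_agHl

private theorem ms_ch {n : ℕ} (μ : Fin n → ℕ) (J : Finset (Fin n)) :
    ms μ J = ((∑ i ∈ J, (μ i + 1).choose 2 : ℕ) : ℤ) := by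
  unfold ms
  rw [Nat.cast_sum]
  refine Finset.sum_congr rfl fun i _ => ?_
  rw [Nat.choose_two_right, Nat.add_sub_cancel, Nat.mul_comm (μ i + 1) (μ i)]

/-- E6. `emp_rq`; `ar_e` with `z = rq q N 0 ≤ q N` (`rq_z`), `Q = q ^ 2`, `T = ⌈N / q⌉`,
`R c = rq q N c` (`row_e`), `J = {i | μ i ≤ A}`, `O = {i | A < μ i}` (`J ∪ O = univ`);
`∑ R = (N + 1).choose 2` (`rq_sum`), `ms` is the sum of the `(μ i + 1).choose 2`
(`Nat.choose_two_right`). For `c < A`: `q (c + 2) ≤ q (A + 2) ≤ N`. -/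
theorem emp_e {n q N A M : ℕ} {μ : Fin n → ℕ} (hq : 3 ≤ q) (hA : 1 ≤ A) (hAM : A ≤ M)
    (hμ : ∀ i, μ i ≤ M) (hqA : 9 * A ≤ q ^ 2) (hqN : q * (A + 2) ≤ N)
    (h1 : (N + 1).choose 2 ≤ ∑ i, (μ i + 1).choose 2)
    (h2 : (A + 2 + M) * (q * N) + M ^ 2 ≤
      ∑ i ∈ Finset.univ.filter (fun i => μ i ≤ A), (μ i + 1).choose 2)
    (h3 : (A + 2 + M) * (q * N) ≤ (N + 1).choose 2) :
    EmpQ (dgm (tri N) N) μ Finset.univ := by
  have hq2 : 9 ≤ q ^ 2 := by nlinarith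
  have hqle : q * 1 ≤ q * (A + 2) := Nat.mul_le_mul_left q (by omega)
  have hqN' : q ≤ N := by omega
  have hN : 1 ≤ N := by omega
  obtain ⟨r1, r2, r3, r4, r5⟩ := row_e (q := q) (N := N) (by omega) hN
  have hz := rq_z hqN'
  have hqNpos : 1 ≤ q * N := Nat.mul_pos (by omega) (by omega)
  have hsum := rq_sum (q := q) (N := N) (by omega)
  have hle : (A + 2 + M) * rq q N 0 ≤ (A + 2 + M) * (q * N) := Nat.mul_le_mul_left _ hz.2
  have hJO : Finset.univ.filter (fun i => μ i ≤ A) ∪ Finset.univ.filter (fun i => ¬ μ i ≤ A) =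
      (Finset.univ : Finset (Fin n)) := Finset.filter_union_filter_not_eq _ _
  have hdis : Disjoint (Finset.univ.filter (fun i => μ i ≤ A))
      (Finset.univ.filter (fun i => ¬ μ i ≤ A)) :=
    Finset.disjoint_filter_filter_not _ _ _
  refine emp_rq (q := q) (by omega) hN ?_
  rw [← hJO]
  refine ar_e (M := M) (A := A) (z := rq q N 0) (Q := q ^ 2) hA hAM (by omega) hqA (by omega) r5
    (by try dsimp only
        exact le_rfl) (fun c hc => ?_) (fun c hc => ?_) r3 (by exact_mod_cast r4) hdis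
    (fun i hi => (Finset.mem_filter.1 hi).2) (fun i _ => hμ i) ?_ ?_ ?_
  · refine r1 c ?_
    refine le_trans (Nat.mul_le_mul_left q ?_) hqN
    omega
  · exact (r2 c hc).ge
  · rw [← hJO] at h1
    rw [Finset.sum_union hdis] at h1
    rw [ms_ch, ms_ch, ← Nat.cast_sum, hsum]
    exact_mod_cast h1
  · rw [ms_ch]
    have h4 := hle
    exact_mod_cast (le_trans (Nat.add_le_add_right h4 (M ^ 2)) h2)
  · rw [← Nat.cast_sum, hsum]
    exact_mod_cast (le_trans hle h3)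

end Pool.Agent.Lib.MP_6b2d39_agUe
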