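import Pool.Agent.Lib.MP_6b2d39_agUe.ArM
import Pool.Agent.Lib.MP_6b2d39_agUe.RowE
import Pool.Agent.Lib.MP_6b2d39_agUn.EmpT

set_option autoImplicit false

namespace Pool.Agent.Lib.MP_6b2d39_agUe

open Pool.Agent.Lib.MP_6b2d39_agArr Pool.Agent.Lib.MP_6b2d39_agUn Pool.Agent.Lib.MP_6b2d39_agNw
  Pool.Agent.Lib.MP_6b2d39_agHl

private theorem ms_ch {n : ℕ} (μ : Fin n → ℕ) (J : Finset (Fin n)) :
    ms μ J = ((∑ i ∈ J, (μ i + 1).choose 2 : ℕ) : ℤ) := by
  unfold ms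
  rw [Nat.cast_sum]
  refine Finset.sum_congr rfl fun i _ => ?_
  rw [Nat.choose_two_right, Nat.add_sub_cancel, Nat.mul_comm (μ i + 1) (μ i)]

/-- M3 (compare `emp_e` in `EmpE.lean`). `emp_rq`; `ar_m` with `z = rq q N 0`
(`q N / 2 ≤ z ≤ q N`, `rq_z`, so `N ≤ z`), `Q = q ^ 2`, `T = ⌈N / q⌉`, `R c = rq q N c` (`row_e`),
`J = {i | μ i ≤ A}`, `O = {i | A < μ i}` (`J ∪ O = univ`; for `j ∈ O` the set
`J ∪ O.filter (μ i < μ j)` is `{i | μ i < μ j}`); `∑ R = (N + 1).choose 2` (`rq_sum`), `ms` is the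
sum of the `(μ i + 1).choose 2` (`Nat.choose_two_right`). For `c < A`: `q (c + 2) ≤ q (A + 2) ≤ N`. -/
theorem emp_m {n q N A : ℕ} {μ : Fin n → ℕ} (hq : 3 ≤ q) (hA : 1 ≤ A)
    (hqA : 9 * A ≤ q ^ 2) (hqN : q * (A + 2) ≤ N)
    (h1 : (N + 1).choose 2 ≤ ∑ i, (μ i + 1).choose 2)
    (h2 : ∑ i, (μ i + 1).choose 2 ≤ (N + 1).choose 2 + N)
    (h3 : (2 * A + 3) * (q * N) ≤
      ∑ i ∈ Finset.univ.filter (fun i => μ i ≤ A), (μ i + 1).choose 2)
    (h4 : ∀ j, A < μ j → (A + 3 + μ j) * (q * N) ≤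
      ∑ i ∈ Finset.univ.filter (fun i => μ i < μ j), (μ i + 1).choose 2) :
    EmpQ (dgm (tri N) N) μ Finset.univ := by
  have hq2 : 9 ≤ q ^ 2 := by nlinarith
  have hqle : q * 1 ≤ q * (A + 2) := Nat.mul_le_mul_left q (by omega)
  have hqN' : q ≤ N := by omega
  have hN : 1 ≤ N := by omega
  obtain ⟨r1, r2, r3, r4, r5⟩ := row_e (q := q) (N := N) (by omega) hN
  have hz := rq_z hqN'
  have hqNpos : 3 * N ≤ q * N := Nat.mul_le_mul_right N hq
  have hNz : N ≤ rq q N 0 := by omega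
  have hsum := rq_sum (q := q) (N := N) (by omega)
  have hle : ∀ a, a * rq q N 0 ≤ a * (q * N) := fun a => Nat.mul_le_mul_left _ hz.2
  have hJO : Finset.univ.filter (fun i => μ i ≤ A) ∪ Finset.univ.filter (fun i => ¬ μ i ≤ A) =
      (Finset.univ : Finset (Fin n)) := Finset.filter_union_filter_not_eq _ _
  have hdis : Disjoint (Finset.univ.filter (fun i => μ i ≤ A))
      (Finset.univ.filter (fun i => ¬ μ i ≤ A)) :=
    Finset.disjoint_filter_filter_not _ _ _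
  have hO : ∀ j, A < μ j → Finset.univ.filter (fun i => μ i ≤ A) ∪
      (Finset.univ.filter (fun i => ¬ μ i ≤ A)).filter (fun i => μ i < μ j) =
      Finset.univ.filter (fun i => μ i < μ j) := by
    intro j hj
    ext i
    simp only [Finset.mem_union, Finset.mem_filter, Finset.mem_univ, true_and]
    omega
  refine emp_rq (q := q) (by omega) hN ?_
  rw [← hJO]
  refine ar_m (A := A) (z := rq q N 0) (Q := q ^ 2) hA (by omega) hqA (by omega) r5
    (by try dsimp only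
        exact le_rfl) (fun c hc => ?_) (fun c hc => ?_) r3 (by exact_mod_cast r4) hdis
    (fun i hi => (Finset.mem_filter.1 hi).2) ?_ ?_ ?_ (fun j hj => ?_)
  · refine r1 c ?_
    refine le_trans (Nat.mul_le_mul_left q ?_) hqN
    omega
  · exact (r2 c hc).ge
  · rw [← hJO] at h1
    rw [Finset.sum_union hdis] at h1
    rw [ms_ch, ms_ch, ← Nat.cast_sum, hsum]
    exact_mod_cast h1
  · rw [← hJO] at h2
    rw [Finset.sum_union hdis] at h2
    rw [ms_ch, ms_ch, ← Nat.cast_sum, hsum]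
    have h5 := le_trans h2 (Nat.add_le_add_left hNz _)
    exact_mod_cast h5
  · rw [ms_ch]
    exact_mod_cast le_trans (hle (2 * A + 3)) h3
  · have hj' : A < μ j := not_le.1 (Finset.mem_filter.1 hj).2
    rw [hO j hj', ms_ch]
    exact_mod_cast le_trans (hle (A + 3 + μ j)) (h4 j hj')

end Pool.Agent.Lib.MP_6b2d39_agUe
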