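import Mathlib

set_option autoImplicit false

namespace Pool.Agent.Lib.MP_6b2d39_agUe

private theorem two_ch (n : ℕ) : 2 * (n + 1).choose 2 = n * (n + 1) := by
  induction n with
  | zero => rfl
  | succ k ih =>
    have h : (k + 1 + 1).choose 2 = (k + 1).choose 1 + (k + 1).choose 2 :=
      Nat.choose_succ_succ' (k + 1) 1
    rw [h, Nat.choose_one_right, mul_add, ih]
    ring

/-- E7 (numbers). `S = ∑ μ i ^ 2`, `SA` = the same sum over `μ i ≤ A`, `V = ∑ (μ i + 1).choose 2`,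
`VA` the same over `μ i ≤ A`; `SA ≤ 2 VA`, `V ≤ S ≤ 2 V`, `SA ≤ S`. `N` is the largest number with
`(N + 1).choose 2 ≤ V`. Take `q = Nat.sqrt (9 A) + 1`: `9 A ≤ q ^ 2 ≤ 16 A`, `q ≥ 3 + 1`. With
`L = M q`: `L ^ 2 ≤ 16 M ^ 2 A`; `10 ^ 6 M ^ 2 A ≤ S` (divide by `S > 0`, `SA ≤ S`), so
`(250 L) ^ 2 ≤ S ≤ 2 V < (N + 2) ^ 2` and `N + 2 > 250 L`; `N ^ 2 ≤ 2 V ≤ 2 S`.
(2) `(A + 2 + M) q N ≤ 4 L N` and `(128 L N) ^ 2 ≤ 16384 * 16 M ^ 2 A * 2 S ≤ SA ^ 2` so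
`4 L N ≤ SA / 32`; `M ^ 4 ≤ M ^ 2 A S / 10 ^ 6 ≤ SA ^ 2 / 10 ^ 12`, so `M ^ 2 ≤ SA / 10 ^ 6`;
(3) `4 L ≤ N / 2`; (1) `q (A + 2) ≤ 3 L ≤ N`. -/
theorem num_e {M A S SA V VA N : ℕ} (hA : 1 ≤ A) (hAM : A ≤ M) (hS : 0 < S)
    (h : 10 ^ 6 * M ^ 2 * A * S ≤ SA ^ 2) (hSA : SA ≤ S) (hVA : SA ≤ 2 * VA) (hV1 : V ≤ S)
    (hV2 : S ≤ 2 * V) (hN1 : (N + 1).choose 2 ≤ V) (hN2 : V < (N + 2).choose 2) :
    ∃ q : ℕ, 3 ≤ q ∧ 9 * A ≤ q ^ 2 ∧ q * (A + 2) ≤ N ∧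
      (A + 2 + M) * (q * N) + M ^ 2 ≤ VA ∧ (A + 2 + M) * (q * N) ≤ (N + 1).choose 2 := by
  obtain ⟨s, hs⟩ : ∃ s, s = Nat.sqrt (9 * A) := ⟨_, rfl⟩
  have hs1 : s * s ≤ 9 * A := by rw [hs]; exact Nat.sqrt_le (9 * A)
  have hs2 : 9 * A < (s + 1) * (s + 1) := by rw [hs]; exact Nat.lt_succ_sqrt (9 * A)
  have hs3 : 3 ≤ s := by
    by_contra hcon
    have h1 : s + 1 ≤ 3 := by omega
    have h2 : (s + 1) * (s + 1) ≤ 3 * 3 := Nat.mul_le_mul h1 h1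
    omega
  have hs4 : s ≤ 3 * A := by
    by_contra hcon
    have h1 : 3 * A + 1 ≤ s := by omega
    have h2 : (3 * A + 1) * (3 * A + 1) ≤ s * s := Nat.mul_le_mul h1 h1
    nlinarith
  have hq16 : (s + 1) * (s + 1) ≤ 16 * A := by nlinarith
  have hM : 1 ≤ M := hA.trans hAM
  -- `10 ^ 6 M ^ 2 A ≤ S`
  have hMS : 10 ^ 6 * M ^ 2 * A ≤ S := by
    have h1 : 10 ^ 6 * M ^ 2 * A * S ≤ S * S := by
      refine h.trans ?_
      rw [pow_two]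
      exact Nat.mul_le_mul hSA hSA
    exact Nat.le_of_mul_le_mul_right h1 hS
  have hL2 : (M * (s + 1)) ^ 2 ≤ 16 * (M ^ 2 * A) := by
    calc (M * (s + 1)) ^ 2 = M ^ 2 * ((s + 1) * (s + 1)) := by ring
      _ ≤ M ^ 2 * (16 * A) := Nat.mul_le_mul_left _ hq16
      _ = 16 * (M ^ 2 * A) := by ring
  obtain ⟨L, hL⟩ : ∃ L, L = M * (s + 1) := ⟨_, rfl⟩
  rw [← hL] at hL2
  have hL1 : 1 ≤ L := by rw [hL]; exact Nat.mul_pos hM (Nat.succ_pos s)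
  have e1 := two_ch N
  have e2 := two_ch (N + 1)
  have hLN : 250 * L ≤ N + 1 := by
    by_contra hcon
    have h1 : N + 2 ≤ 250 * L := by omega
    have h2 : (N + 2) * (N + 2) ≤ (250 * L) * (250 * L) := Nat.mul_le_mul h1 h1
    have h3 : (250 * L) * (250 * L) = 62500 * L ^ 2 := by ring
    have h4 : 62500 * L ^ 2 ≤ S := by
      refine le_trans (Nat.mul_le_mul_left 62500 hL2) (le_trans (le_of_eq ?_) hMS)
      ring
    have h5 : 2 * V < (N + 1) * (N + 1 + 1) := by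
      rw [← e2]
      exact Nat.mul_lt_mul_of_pos_left hN2 (by norm_num)
    nlinarith
  have hN : N * N ≤ 2 * S := by
    have h1 : 2 * (N + 1).choose 2 ≤ 2 * V := Nat.mul_le_mul_left 2 hN1
    rw [e1] at h1
    nlinarith
  have hAM4 : A + 2 + M ≤ 4 * M := by omega
  have hmain : (A + 2 + M) * ((s + 1) * N) ≤ 4 * L * N := by
    calc (A + 2 + M) * ((s + 1) * N) ≤ 4 * M * ((s + 1) * N) := Nat.mul_le_mul_right _ hAM4
      _ = 4 * L * N := by rw [hL]; ring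
  have hX : 128 * L * N ≤ SA := by
    have h1 : (128 * L * N) ^ 2 ≤ SA ^ 2 := by
      calc (128 * L * N) ^ 2 = 16384 * (L ^ 2 * (N * N)) := by ring
        _ ≤ 16384 * (16 * (M ^ 2 * A) * (2 * S)) :=
            Nat.mul_le_mul_left _ (Nat.mul_le_mul hL2 hN)
        _ = 524288 * (M ^ 2 * A * S) := by ring
        _ ≤ 10 ^ 6 * (M ^ 2 * A * S) := Nat.mul_le_mul_right _ (by norm_num)
        _ = 10 ^ 6 * M ^ 2 * A * S := by ring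
        _ ≤ SA ^ 2 := h
    exact (Nat.pow_le_pow_iff_left (by norm_num)).mp h1
  have hY : 10 ^ 6 * M ^ 2 ≤ SA := by
    have h0 : 10 ^ 6 * M ^ 2 ≤ 10 ^ 6 * M ^ 2 * A := Nat.le_mul_of_pos_right _ hA
    have h1 : (10 ^ 6 * M ^ 2) ^ 2 ≤ SA ^ 2 := by
      calc (10 ^ 6 * M ^ 2) ^ 2 = (10 ^ 6 * M ^ 2) * (10 ^ 6 * M ^ 2) := by ring
        _ ≤ (10 ^ 6 * M ^ 2 * A) * S := Nat.mul_le_mul h0 (h0.trans hMS)
        _ ≤ SA ^ 2 := h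
    exact (Nat.pow_le_pow_iff_left (by norm_num)).mp h1
  have h16 : (10 : ℕ) ^ 6 * M ^ 2 = 1000000 * M ^ 2 := by norm_num
  refine ⟨s + 1, by omega, ?_, ?_, ?_, ?_⟩
  · rw [pow_two]
    exact hs2.le
  · have h1 : (s + 1) * (A + 2) ≤ 3 * L := by
      calc (s + 1) * (A + 2) ≤ (s + 1) * (3 * M) := Nat.mul_le_mul_left _ (by omega)
        _ = 3 * L := by rw [hL]; ring
    omega
  · have h1 : 128 * L * N = 32 * (4 * L * N) := by ring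
    omega
  · have h1 : 2 * (4 * L * N) ≤ 2 * (N + 1).choose 2 := by
      rw [e1]
      calc 2 * (4 * L * N) = N * (8 * L) := by ring
        _ ≤ N * (N + 1) := Nat.mul_le_mul_left _ (by omega)
    omega

end Pool.Agent.Lib.MP_6b2d39_agUe
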