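import Pool.Agent.Lib.MP_6b2d39_agUe.EmpE
import Pool.Agent.Lib.MP_6b2d39_agUe.NumE
import Pool.Agent.Lib.MP_6b2d39_agUn.AppU
import Pool.Agent.Lib.MP_6b2d39_agUn.DegMono
import Pool.Agent.Lib.MP_6b2d39_agHl.ToGen
import Pool.Agent.Lib.MP_6b2d39_agHy.EmpCut

set_option autoImplicit false

namespace Pool.Agent.Lib.MP_6b2d39_agUe

open Pool.Agent.Lib.MP_6b2d39_agArr Pool.Agent.Lib.MP_6b2d39_agUn Pool.Agent.Lib.MP_6b2d39_agNw
  Pool.Agent.Lib.MP_6b2d39_agHl Pool.Agent.Lib.MP_6b2d39_agCr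

private theorem ee_two (k : ℕ) : 2 * (k + 1).choose 2 = k ^ 2 + k := by
  rw [Nat.choose_two_right, Nat.add_sub_cancel, Nat.mul_div_cancel']
  · ring
  · exact (Nat.even_mul_pred_self (k + 1)).two_dvd

private theorem ee_max (V : ℕ) :
    ∃ N : ℕ, (N + 1).choose 2 ≤ V ∧ V < (N + 2).choose 2 := by
  have hex : ∃ N : ℕ, V < (N + 2).choose 2 := by
    refine ⟨V, ?_⟩
    have h := ee_two (V + 1)
    have h1 : V + 1 + 1 = V + 2 := rfl
    rw [h1] at h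
    nlinarith
  refine ⟨Nat.find hex, ?_, Nat.find_spec hex⟩
  rcases Nat.eq_zero_or_pos (Nat.find hex) with h0 | h0
  · rw [h0]
    exact Nat.zero_le V
  · have h1 : ¬ V < (Nat.find hex - 1 + 2).choose 2 := Nat.find_min hex (by omega)
    have h2 : Nat.find hex - 1 + 2 = Nat.find hex + 1 := by omega
    rw [h2] at h1
    omega

/-- E8 (`vd d μ ≤ 0`). `N` the largest number with `(N + 1).choose 2 ≤ ∑ (μ i + 1).choose 2`
(`Nat.findGreatest` or `Nat.find`), `N ≥ d + 1`; `num_e`, `emp_e`, `general_of_emp`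
(`Hl/ToGen.lean`, used as in `Un/WinU.lean`: `general_of_emp (emp_inl …)`) in the degree `N - 1`,
whose virtual dimension is `≤ 0`, then `deg_mono` from `d` to `N - 1`. -/
theorem empty_e {n A M : ℕ} {μ : Fin n → ℕ} (hA : 1 ≤ A) (hAM : A ≤ M) (hμ : ∀ i, μ i ≤ M)
    (h0 : 0 < ∑ i, μ i ^ 2)
    (h : 10 ^ 6 * M ^ 2 * A * ∑ i, μ i ^ 2 ≤
      (∑ i ∈ Finset.univ.filter (fun i => μ i ≤ A), μ i ^ 2) ^ 2) {d : ℕ} (hv : vd d μ ≤ 0) :
    General (fun P => (Module.finrank ℂ (curves d μ P) : ℤ) = 0) := by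
  classical
  obtain ⟨V, hV⟩ : ∃ V : ℕ, V = ∑ i, (μ i + 1).choose 2 := ⟨_, rfl⟩
  obtain ⟨N, hN1, hN2⟩ := ee_max V
  have hvd : ∀ e : ℕ, vd e μ = ((e + 2).choose 2 : ℤ) - (V : ℤ) := by
    intro e
    rw [vd, hV]
    push_cast
    rfl
  have hd1 : (d + 2).choose 2 ≤ V := by
    rw [hvd d] at hv
    have h1 : ((d + 2).choose 2 : ℤ) ≤ (V : ℤ) := by linarith
    exact_mod_cast h1
  have hdN : d < N := by
    by_contra hcon
    have h1 : (N + 2).choose 2 ≤ (d + 2).choose 2 := Nat.choose_le_choose 2 (by omega)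
    omega
  obtain ⟨e, rfl⟩ : ∃ e, N = e + 1 := ⟨N - 1, by omega⟩
  have hS : ∀ J : Finset (Fin n), ∑ i ∈ J, μ i ^ 2 ≤ 2 * ∑ i ∈ J, (μ i + 1).choose 2 := by
    intro J
    rw [Finset.mul_sum]
    refine Finset.sum_le_sum fun i _ => ?_
    have h1 := ee_two (μ i)
    omega
  have hV1 : ∑ i, (μ i + 1).choose 2 ≤ ∑ i, μ i ^ 2 := by
    refine Finset.sum_le_sum fun i _ => ?_
    have h1 := ee_two (μ i)
    have h2 : μ i ≤ μ i ^ 2 := Nat.le_self_pow (by norm_num) _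
    omega
  obtain ⟨q, hq, h9, hqA, h2, h3⟩ := num_e (M := M) (A := A) (S := ∑ i, μ i ^ 2)
    (SA := ∑ i ∈ Finset.univ.filter (fun i => μ i ≤ A), μ i ^ 2) (V := V)
    (VA := ∑ i ∈ Finset.univ.filter (fun i => μ i ≤ A), (μ i + 1).choose 2) (N := e + 1)
    hA hAM h0 h (Finset.sum_le_sum_of_subset (Finset.filter_subset _ _)) (hS _)
    (by rw [hV]; exact hV1) (by rw [hV]; exact hS _) hN1 hN2
  have hE : EmpQ (dgm (tri (e + 1)) (e + 1)) μ Finset.univ :=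
    emp_e hq hA hAM hμ h9 hqA (by rw [← hV]; exact hN1) h2 h3
  obtain ⟨Φ, hΦ, hP⟩ := general_of_emp (d := e) (μ := μ)
    (MP_6b2d39_agHy.emp_inl (u := (vd e μ).toNat) hE)
  refine ⟨Φ, hΦ, fun P hp => ?_⟩
  have h4 := hP P hp
  have h5 : vd e μ ≤ 0 := by
    rw [hvd e]
    have h6 : ((e + 2).choose 2 : ℤ) ≤ (V : ℤ) := by exact_mod_cast hN1
    linarith
  rw [max_eq_right h5] at h4
  have h6 : Module.finrank ℂ (curves e μ P) = 0 := by exact_mod_cast h4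
  have h7 := deg_mono (show d ≤ e by omega) μ P
  rw [h6] at h7
  exact_mod_cast Nat.le_zero.1 h7

end Pool.Agent.Lib.MP_6b2d39_agUe
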