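import Mathlib

set_option autoImplicit false

namespace Pool.Agent.Lib.MP_6b2d39_agUe

/-- M4 (numbers, first part). `S = ∑ μ i ^ 2`, `SA` = the same sum over `μ i ≤ A`,
`V = ∑ (μ i + 1).choose 2`, `VA` the same over `μ i ≤ A`. `N` is the largest number with
`(N + 1).choose 2 ≤ V`. Take `q = Nat.sqrt (9 A) + 1`: `9 A ≤ q ^ 2 ≤ 16 A`, `q ≥ 4`.
`N ^ 2 ≤ 2 V ≤ 2 S`, `S ≤ 2 V < (N + 2) ^ 2`. From `h` with `SA ≤ S`, `0 < S`:
`10 ^ 6 A ^ 3 ≤ S`, so `250 A q ≤ N + 2` (squares), `q (A + 2) ≤ 3 A q ≤ N`.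
`(2 A + 3) q N ≤ 5 A q N` and `(10 A q N) ^ 2 ≤ 100 A ^ 2 * 16 A * 2 S ≤ SA ^ 2`. -/
theorem num_m {A S SA V VA N : ℕ} (hA : 1 ≤ A) (hS : 0 < S)
    (h : 10 ^ 6 * A ^ 3 * S ≤ SA ^ 2) (hSA : SA ≤ S) (hVA : SA ≤ 2 * VA) (hV1 : V ≤ S)
    (hV2 : S ≤ 2 * V) (hN1 : (N + 1).choose 2 ≤ V) (hN2 : V < (N + 2).choose 2) :
    ∃ q : ℕ, 3 ≤ q ∧ 9 * A ≤ q ^ 2 ∧ q ^ 2 ≤ 16 * A ∧ q * (A + 2) ≤ N ∧ N ^ 2 ≤ 2 * S ∧
      (2 * A + 3) * (q * N) ≤ VA := by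
  obtain ⟨s, hs⟩ : ∃ s, s = Nat.sqrt (9 * A) := ⟨_, rfl⟩
  have hs1 : s * s ≤ 9 * A := by rw [hs]; exact Nat.sqrt_le (9 * A)
  have hs2 : 9 * A < (s + 1) * (s + 1) := by rw [hs]; exact Nat.lt_succ_sqrt (9 * A)
  have hs3 : 3 ≤ s := by
    by_contra hlt
    have h1 : s + 1 ≤ 3 := by omega
    have h2 : (s + 1) * (s + 1) ≤ 3 * 3 := Nat.mul_le_mul h1 h1
    omega
  have hs4 : s ≤ 3 * A := by
    by_contra hlt
    have h1 : 3 * A + 1 ≤ s := by omega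
    have h2 : (3 * A + 1) * (3 * A + 1) ≤ s * s := Nat.mul_le_mul h1 h1
    nlinarith
  have hq1 : 9 * A ≤ (s + 1) ^ 2 := by rw [sq]; omega
  have hq2 : (s + 1) ^ 2 ≤ 16 * A := by
    have : (s + 1) ^ 2 = s * s + 2 * s + 1 := by ring
    omega
  have hbig : 10 ^ 6 * A ^ 3 ≤ S := by
    have h1 : 10 ^ 6 * A ^ 3 * S ≤ S * S := by
      calc 10 ^ 6 * A ^ 3 * S ≤ SA ^ 2 := h
        _ = SA * SA := sq SA
        _ ≤ S * S := Nat.mul_le_mul hSA hSA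
    exact Nat.le_of_mul_le_mul_right h1 hS
  have hN2' : 2 * V < (N + 2) * (N + 1) := by
    have h1 := Nat.choose_two_right (N + 2)
    have h2 : (N + 2) * (N + 2 - 1) / 2 * 2 ≤ (N + 2) * (N + 2 - 1) := Nat.div_mul_le_self _ _
    have h3 : N + 2 - 1 = N + 1 := by omega
    rw [h3] at h1 h2
    rw [h1] at hN2
    omega
  have hN1' : (N + 1) * N ≤ 2 * V := by
    have h1 := Nat.choose_two_right (N + 1)
    have h3 : N + 1 - 1 = N := by omega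
    rw [h3] at h1
    have h4 : 2 ∣ (N + 1) * N := by
      rw [Nat.mul_comm]
      exact (Nat.even_mul_succ_self N).two_dvd
    have h5 := Nat.div_mul_cancel h4
    rw [h1] at hN1
    omega
  have hNS : N ^ 2 ≤ 2 * S := by
    have : N ^ 2 ≤ (N + 1) * N := by rw [sq]; exact Nat.mul_le_mul_right N (by omega)
    omega
  have h250 : 250 * (A * (s + 1)) < N + 2 := by
    by_contra hlt
    have h1 : N + 2 ≤ 250 * (A * (s + 1)) := by omega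
    have h2 : (N + 2) * (N + 2) ≤ 250 * (A * (s + 1)) * (250 * (A * (s + 1))) :=
      Nat.mul_le_mul h1 h1
    have h3 : 250 * (A * (s + 1)) * (250 * (A * (s + 1))) = 62500 * A ^ 2 * (s + 1) ^ 2 := by ring
    have h4 : 62500 * A ^ 2 * (s + 1) ^ 2 ≤ 62500 * A ^ 2 * (16 * A) :=
      Nat.mul_le_mul_left _ hq2
    have h5 : 62500 * A ^ 2 * (16 * A) = 10 ^ 6 * A ^ 3 := by ring
    have h6 : (N + 2) * (N + 1) ≤ (N + 2) * (N + 2) := Nat.mul_le_mul_left _ (by omega)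
    omega
  have hAq : 1 * 4 ≤ A * (s + 1) := Nat.mul_le_mul hA (by omega)
  have hqA : (s + 1) * (A + 2) ≤ N := by
    have h1 : (s + 1) * (A + 2) ≤ (s + 1) * (3 * A) := Nat.mul_le_mul_left _ (by omega)
    have h2 : (s + 1) * (3 * A) = 3 * (A * (s + 1)) := by ring
    omega
  refine ⟨s + 1, by omega, hq1, hq2, hqA, hNS, ?_⟩
  have h10 : 10 * A * ((s + 1) * N) ≤ SA := by
    by_contra hlt
    have h1 : SA + 1 ≤ 10 * A * ((s + 1) * N) := by omega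
    have h2 : SA * SA < 10 * A * ((s + 1) * N) * (10 * A * ((s + 1) * N)) :=
      Nat.mul_lt_mul'' (by omega) (by omega)
    have h3 : 10 * A * ((s + 1) * N) * (10 * A * ((s + 1) * N))
        = 100 * A ^ 2 * ((s + 1) ^ 2 * N ^ 2) := by ring
    have h4 : (s + 1) ^ 2 * N ^ 2 ≤ 16 * A * (2 * S) := Nat.mul_le_mul hq2 hNS
    have h5 : 100 * A ^ 2 * ((s + 1) ^ 2 * N ^ 2) ≤ 100 * A ^ 2 * (16 * A * (2 * S)) :=
      Nat.mul_le_mul_left _ h4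
    have h6 : 100 * A ^ 2 * (16 * A * (2 * S)) = 3200 * (A ^ 3 * S) := by ring
    have h7 : 10 ^ 6 * A ^ 3 * S = 1000000 * (A ^ 3 * S) := by ring
    have h8 : SA ^ 2 = SA * SA := sq SA
    omega
  have h5A : (2 * A + 3) * ((s + 1) * N) ≤ 5 * A * ((s + 1) * N) :=
    Nat.mul_le_mul_right _ (by omega)
  have h5B : 2 * (5 * A * ((s + 1) * N)) = 10 * A * ((s + 1) * N) := by ring
  omega

/-- M4 (numbers, second part): one big point of multiplicity `k > A`, `m = k - 1`; `Sm` = the sum of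
the `μ i ^ 2` over `μ i ≤ m`, `Vm` the same with `(μ i + 1).choose 2`. `A + 3 + k ≤ 4 k ≤ 8 m`,
`(16 m q N) ^ 2 ≤ 256 m ^ 2 * 16 A * 2 S ≤ Sm ^ 2`, so `8 m q N ≤ Sm / 2 ≤ Vm`. -/
theorem num_k {A S Sm Vm N q k m : ℕ} (hA : 1 ≤ A) (hk : A < k) (hm : m + 1 = k)
    (h : 10 ^ 6 * m ^ 2 * A * S ≤ Sm ^ 2) (hVm : Sm ≤ 2 * Vm) (hq : q ^ 2 ≤ 16 * A)
    (hN : N ^ 2 ≤ 2 * S) : (A + 3 + k) * (q * N) ≤ Vm := by
  have hm1 : 1 ≤ m := by omega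
  have h16 : 16 * m * (q * N) ≤ Sm := by
    by_contra hlt
    have h1 : Sm + 1 ≤ 16 * m * (q * N) := by omega
    have h2 : Sm * Sm < 16 * m * (q * N) * (16 * m * (q * N)) :=
      Nat.mul_lt_mul'' (by omega) (by omega)
    have h3 : 16 * m * (q * N) * (16 * m * (q * N)) = 256 * m ^ 2 * (q ^ 2 * N ^ 2) := by ring
    have h4 : q ^ 2 * N ^ 2 ≤ 16 * A * (2 * S) := Nat.mul_le_mul hq hN
    have h5 : 256 * m ^ 2 * (q ^ 2 * N ^ 2) ≤ 256 * m ^ 2 * (16 * A * (2 * S)) :=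
      Nat.mul_le_mul_left _ h4
    have h6 : 256 * m ^ 2 * (16 * A * (2 * S)) = 8192 * (m ^ 2 * A * S) := by ring
    have h7 : 10 ^ 6 * m ^ 2 * A * S = 1000000 * (m ^ 2 * A * S) := by ring
    have h8 : Sm ^ 2 = Sm * Sm := sq Sm
    omega
  have h8A : (A + 3 + k) * (q * N) ≤ 8 * m * (q * N) := Nat.mul_le_mul_right _ (by omega)
  have h8B : 2 * (8 * m * (q * N)) = 16 * m * (q * N) := by ring
  omega

end Pool.Agent.Lib.MP_6b2d39_agUe
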