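import Pool.Agent.Lib.MP_6b2d39_agUe.EmpM
import Pool.Agent.Lib.MP_6b2d39_agUe.NumM
import Pool.Agent.Lib.MP_6b2d39_agUn.AppU
import Pool.Agent.Lib.MP_6b2d39_agUn.DegMono
import Pool.Agent.Lib.MP_6b2d39_agHl.ToGen
import Pool.Agent.Lib.MP_6b2d39_agHy.EmpCut

set_option autoImplicit false

namespace Pool.Agent.Lib.MP_6b2d39_agUe

open Pool.Agent.Lib.MP_6b2d39_agArr Pool.Agent.Lib.MP_6b2d39_agUn Pool.Agent.Lib.MP_6b2d39_agNw
  Pool.Agent.Lib.MP_6b2d39_agHl Pool.Agent.Lib.MP_6b2d39_agCr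

private theorem em_ch (a : ℕ) : 2 * (a + 1).choose 2 = (a + 1) * a := by
  have h1 := Nat.choose_two_right (a + 1)
  have h3 : a + 1 - 1 = a := by omega
  rw [h3] at h1
  have h4 : 2 ∣ (a + 1) * a := by
    rw [Nat.mul_comm]
    exact (Nat.even_mul_succ_self a).two_dvd
  have h5 := Nat.div_mul_cancel h4
  rw [h1]
  omega

private theorem em_lo (a : ℕ) : a ^ 2 ≤ 2 * (a + 1).choose 2 := by
  rw [em_ch, sq]
  exact Nat.mul_le_mul_right a (by omega)

private theorem em_hi (a : ℕ) : (a + 1).choose 2 ≤ a ^ 2 := by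
  have h1 := em_ch a
  have h2 : a ≤ a ^ 2 := Nat.le_self_pow (by norm_num) a
  have h3 : (a + 1) * a = a ^ 2 + a := by ring
  omega

/-- M5 (`vd d μ ≤ 0`; compare `empty_e` in `EmptyE.lean`). `N` the largest number with
`(N + 1).choose 2 ≤ ∑ (μ i + 1).choose 2` (`Nat.findGreatest` or `Nat.find`), `N ≥ d + 1`, so
`∑ (μ i + 1).choose 2 ≤ (N + 1).choose 2 + N`; `num_m` (`m = A`), `num_k` (`m = μ j - 1`), `emp_m`,
`general_of_emp` (`Hl/ToGen.lean`, used as in `Un/WinU.lean`: `general_of_emp (emp_inl …)`) in the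
degree `N - 1`, whose virtual dimension is `≤ 0`, then `deg_mono` from `d` to `N - 1`.
(`μ ^ 2 ≤ 2 (μ + 1).choose 2` and `(μ + 1).choose 2 ≤ μ ^ 2`.) -/
theorem empty_m {n A M : ℕ} {μ : Fin n → ℕ} (hA : 1 ≤ A) (hAM : A ≤ M) (hμ : ∀ i, μ i ≤ M)
    (h0 : 0 < ∑ i, μ i ^ 2)
    (h : ∀ m, A ≤ m → m ≤ M → 10 ^ 6 * m ^ 2 * A * ∑ i, μ i ^ 2 ≤
      (∑ i ∈ Finset.univ.filter (fun i => μ i ≤ m), μ i ^ 2) ^ 2) {d : ℕ} (hv : vd d μ ≤ 0) :
    General (fun P => (Module.finrank ℂ (curves d μ P) : ℤ) = 0) := by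
  classical
  have hV1 : ∑ i, (μ i + 1).choose 2 ≤ ∑ i, μ i ^ 2 := Finset.sum_le_sum fun i _ => em_hi _
  have hVs : ∀ s : Finset (Fin n), ∑ i ∈ s, μ i ^ 2 ≤ 2 * ∑ i ∈ s, (μ i + 1).choose 2 := by
    intro s
    rw [Finset.mul_sum]
    exact Finset.sum_le_sum fun i _ => em_lo _
  have hd : (d + 2).choose 2 ≤ ∑ i, (μ i + 1).choose 2 := by
    unfold vd at hv
    have h1 : ((d + 2).choose 2 : ℤ) ≤ ∑ i, ((μ i + 1).choose 2 : ℤ) := by linarith
    exact_mod_cast h1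
  have hex : ∃ N : ℕ, ∑ i, (μ i + 1).choose 2 < (N + 2).choose 2 := by
    refine ⟨∑ i, (μ i + 1).choose 2, ?_⟩
    have h1 := em_ch (∑ i, (μ i + 1).choose 2 + 1)
    have h2 : (∑ i, (μ i + 1).choose 2 + 1 + 1) * (∑ i, (μ i + 1).choose 2 + 1) =
      (∑ i, (μ i + 1).choose 2) * (∑ i, (μ i + 1).choose 2) + 3 * (∑ i, (μ i + 1).choose 2) + 2 := by
      ring
    show _ < (∑ i, (μ i + 1).choose 2 + 1 + 1).choose 2
    omega
  obtain ⟨N, hN2, hN1⟩ : ∃ N : ℕ, ∑ i, (μ i + 1).choose 2 < (N + 2).choose 2 ∧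
      (N + 1).choose 2 ≤ ∑ i, (μ i + 1).choose 2 := by
    refine ⟨Nat.find hex, Nat.find_spec hex, ?_⟩
    rcases Nat.eq_zero_or_pos (Nat.find hex) with hz | hz
    · rw [hz]
      simp
    · have h1 := Nat.find_min hex (m := Nat.find hex - 1) (by omega)
      rw [not_lt] at h1
      have h2 : Nat.find hex - 1 + 2 = Nat.find hex + 1 := by omega
      rwa [h2] at h1
  have hdN : d + 1 ≤ N := by
    by_contra hlt
    have h1 : (N + 2).choose 2 ≤ (d + 2).choose 2 := Nat.choose_le_choose 2 (by omega)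
    omega
  have hN3 : ∑ i, (μ i + 1).choose 2 ≤ (N + 1).choose 2 + N := by
    have h1 : (N + 2).choose 2 = (N + 1).choose 1 + (N + 1).choose 2 := Nat.choose_succ_succ' _ _
    rw [Nat.choose_one_right] at h1
    omega
  have hA' := h A le_rfl hAM
  obtain ⟨q, q1, q2, q3, q4, q5, q6⟩ := num_m (A := A) (S := ∑ i, μ i ^ 2)
    (SA := ∑ i ∈ Finset.univ.filter (fun i => μ i ≤ A), μ i ^ 2)
    (V := ∑ i, (μ i + 1).choose 2)
    (VA := ∑ i ∈ Finset.univ.filter (fun i => μ i ≤ A), (μ i + 1).choose 2) (N := N) hA h0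
    (by
      have h1 : 10 ^ 6 * A ^ 3 * ∑ i, μ i ^ 2 = 10 ^ 6 * A ^ 2 * A * ∑ i, μ i ^ 2 := by ring
      rw [h1]
      exact hA')
    (Finset.sum_le_sum_of_subset (Finset.filter_subset _ _)) (hVs _) hV1 (hVs _) hN1 hN2
  have hE : EmpQ (dgm (tri N) N) μ Finset.univ := by
    refine emp_m q1 hA q2 q4 hN1 hN3 q6 fun j hj => ?_
    have hfil : Finset.univ.filter (fun i => μ i < μ j) =
        Finset.univ.filter (fun i => μ i ≤ μ j - 1) := by
      refine Finset.filter_congr fun i _ => ?_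
      omega
    rw [hfil]
    exact num_k (m := μ j - 1) hA hj (by omega) (h (μ j - 1) (by omega)
      (by have := hμ j; omega)) (hVs _) q3 q5
  have hN' : N - 1 + 1 = N := by omega
  have hG := general_of_emp (d := N - 1) (μ := μ)
    (by
      rw [hN']
      exact Pool.Agent.Lib.MP_6b2d39_agHy.emp_inl hE)
  have hvN : vd (N - 1) μ ≤ 0 := by
    unfold vd
    have h1 : N - 1 + 2 = N + 1 := by omega
    rw [h1]
    have h2 : ((N + 1).choose 2 : ℤ) ≤ ∑ i, ((μ i + 1).choose 2 : ℤ) := by exact_mod_cast hN1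
    linarith
  refine hG.mono fun P hP => ?_
  rw [max_eq_right hvN] at hP
  have h1 := deg_mono (d := d) (e := N - 1) (by omega) μ P
  have h2 : (Module.finrank ℂ (curves (N - 1) μ P)) = 0 := by exact_mod_cast hP
  rw [h2] at h1
  have h3 : Module.finrank ℂ (curves d μ P) = 0 := Nat.le_zero.1 h1
  rw [h3]
  rfl

end Pool.Agent.Lib.MP_6b2d39_agUe
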