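import Pool.Agent.Lib.MP_6b2d39_agUe.Bridge
import Pool.Agent.Lib.MP_6b2d39_agUn.Early
import Pool.Agent.Lib.MP_6b2d39_ag.States
import Pool.Agent.Lib.MP_6b2d39_ag.StatesAux

/-!
Exact filling of rows with slopes `≥ Q ≥ 9 A` by points of multiplicity `≤ A`.
-/

set_option autoImplicit false

namespace Pool.Agent.Lib.MP_6b2d39_agUe

open Pool.Agent.Lib.MP_6b2d39_agArr Pool.Agent.Lib.MP_6b2d39_agUn Pool.Agent.Lib.MP_6b2d39_ag

private theorem cert_sub {ι : Type} {m : ι → ℕ} {J J' : Finset ι} (hJ : J ⊆ J') {y : ℕ}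
    {D : ℕ → ℤ} (h : Cert m J y D) : Cert m J' y D := by
  obtain ⟨e, p, h⟩ := h
  refine ⟨e, p, fun b hb => (h b hb).trans ?_⟩
  exact Finset.sum_le_sum_of_subset_of_nonneg hJ fun i _ _ => by positivity

/-- E2. exactly as `states_exist_of_core` (`Lib/MP_6b2d39_ag/StatesAux.lean`) with `(D b).toNat` in
place of `(thickRow N a' b).card`, `M := A`, `A := Q`, `B := y`, `T := ∑ D` and the points of `J`
instead of all points (`core_finset core (fun j => if j ∈ J then m j else 0)` or
`fun j => min (m j) A`): a maximal `S ⊆ J` with `∑_S (m j + 1).choose 2 < T`, one special point `j0`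
with the slices `special_slices`, then `cert_of_states` for `insert j0 S` and `cert_mono`.
`2 (D (y-2) - D (y-1)) ≥ Q ≥ 9 A - 1` gives the last step, `D c ≥ 1` for `c < y`
(the demands decrease). -/
theorem fill_e {ι : Type} [DecidableEq ι] {m : ι → ℕ} {J : Finset ι} {A Q y : ℕ} {D : ℕ → ℤ}
    (hA : 1 ≤ A) (hQ : 9 * A ≤ Q + 1) (hy : 2 * A + 2 ≤ y) (hm : ∀ j ∈ J, m j ≤ A)
    (h1 : ∀ b < A, D b - D (b + 1) = Q) (h2 : ∀ b, b + 3 ≤ y → (Q : ℤ) ≤ D b - D (b + 1))
    (h3 : (Q : ℤ) ≤ 2 * (D (y - 2) - D (y - 1))) (h4 : 1 ≤ D (y - 1))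
    (hs : ∑ c ∈ Finset.range y, D c ≤ ms m J) : Cert m J y D := by
  classical
  have hstep : ∀ b, b + 2 ≤ y → D (b + 1) + 1 ≤ D b := by
    intro b hb
    rcases Nat.lt_or_ge (b + 2) y with h | h
    · have := h2 b (by omega)
      have hQ1 : (1 : ℤ) ≤ Q := by
        have : 1 ≤ Q := by omega
        exact_mod_cast this
      linarith
    · have e1 : b = y - 2 := by omega
      have e2 : b + 1 = y - 1 := by omega
      rw [e2, e1]
      have hQ1 : (8 : ℤ) ≤ Q := by
        have : 8 ≤ Q := by omega
        exact_mod_cast this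
      linarith
  have hpos' : ∀ k, ∀ c, c + k + 1 = y → 1 ≤ D c := by
    intro k
    induction k with
    | zero =>
      intro c hc
      have h5 : c = y - 1 := by omega
      rw [h5]
      exact h4
    | succ k ih =>
      intro c hc
      have h5 := ih (c + 1) (by omega)
      have h6 := hstep c (by omega)
      linarith
  have hpos : ∀ c < y, 1 ≤ D c := fun c hc => hpos' (y - 1 - c) c (by omega)
  set d : ℕ → ℕ := fun c => (D c).toNat with hd
  have hdD : ∀ c < y, ((d c : ℕ) : ℤ) = D c := by
    intro c hc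
    have := hpos c hc
    simp only [hd]
    exact Int.toNat_of_nonneg (by linarith)
  have hd1 : ∀ b < A, d b = d (b + 1) + Q := by
    intro b hb
    have e1 := h1 b hb
    have e2 := hdD b (by omega)
    have e3 := hdD (b + 1) (by omega)
    omega
  have hd2 : ∀ b, b + 3 ≤ y → d (b + 1) + Q ≤ d b := by
    intro b hb
    have e1 := h2 b hb
    have e2 := hdD b (by omega)
    have e3 := hdD (b + 1) (by omega)
    omega
  have hd3 : 2 * d (y - 1) + Q ≤ 2 * d (y - 2) := by
    have e2 := hdD (y - 1) (by omega)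
    have e3 := hdD (y - 2) (by omega)
    omega
  have hd4 : 1 ≤ d (y - 1) := by
    have e2 := hdD (y - 1) (by omega)
    omega
  set T : ℕ := ∑ c ∈ Finset.range y, d c with hT
  have hTD : (T : ℤ) = ∑ c ∈ Finset.range y, D c := by
    rw [hT]
    push_cast
    exact Finset.sum_congr rfl fun c hc => hdD c (Finset.mem_range.1 hc)
  have hT1 : 1 ≤ T := by
    have h5 : d (y - 1) ≤ T := by
      rw [hT]
      exact Finset.single_le_sum (f := d) (fun _ _ => Nat.zero_le _)
        (Finset.mem_range.2 (by omega))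
    omega
  set m' : ι → ℕ := fun j => if j ∈ J then m j else 0 with hm'
  have hm'J : ∀ j ∈ J, m' j = m j := fun j hj => by simp only [hm', if_pos hj]
  have hm'A : ∀ j, m' j ≤ A := by
    intro j
    simp only [hm']
    split_ifs with h
    · exact hm j h
    · exact Nat.zero_le _
  have hmass : T ≤ ∑ j ∈ J, (m' j + 1).choose 2 := by
    have h5 : ((∑ j ∈ J, (m' j + 1).choose 2 : ℕ) : ℤ) = ms m J := by
      unfold ms
      push_cast
      refine Finset.sum_congr rfl fun j hj => ?_
      rw [hm'J j hj, Nat.choose_two_right]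
      rw [Nat.add_sub_cancel, Nat.mul_comm]
      push_cast
      rfl
    have h6 : (T : ℤ) ≤ ((∑ j ∈ J, (m' j + 1).choose 2 : ℕ) : ℤ) := by
      rw [h5, hTD]
      exact hs
    exact_mod_cast h6
  obtain ⟨S, hSJ, hS, hSmax⟩ : ∃ S : Finset ι, S ⊆ J ∧ ∑ j ∈ S, (m' j + 1).choose 2 < T ∧
      ∀ j ∈ J, j ∉ S → T ≤ ∑ k ∈ insert j S, (m' k + 1).choose 2 := by
    obtain ⟨S, hS, hmax⟩ := Finset.exists_max_image
      (J.powerset.filter (fun S => ∑ j ∈ S, (m' j + 1).choose 2 < T))
      Finset.card ⟨∅, by simp; omega⟩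
    rw [Finset.mem_filter, Finset.mem_powerset] at hS
    refine ⟨S, hS.1, hS.2, ?_⟩
    intro j hjJ hj
    by_contra hcon
    rw [not_le] at hcon
    have h5 := hmax (insert j S) (by
      rw [Finset.mem_filter, Finset.mem_powerset]
      exact ⟨Finset.insert_subset hjJ hS.1, hcon⟩)
    rw [Finset.card_insert_of_notMem hj] at h5
    omega
  obtain ⟨j0, hj0J, hj0⟩ : ∃ j ∈ J, j ∉ S := by
    by_contra hcon
    push Not at hcon
    have h5 : S = J := Finset.Subset.antisymm hSJ hcon
    rw [h5] at hS
    omega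
  have hj0T := hSmax j0 hj0J hj0
  rw [Finset.sum_insert hj0] at hj0T
  set z := T - ∑ j ∈ S, (m' j + 1).choose 2 with hz
  obtain ⟨σ, hσsum, hσlast, hσle, hσmono, hσ0⟩ := special_slices (B := y) (m := m' j0) (y := z)
    (by have := hm'A j0; omega) (by omega)
  have hσM : ∀ b, b < y → σ b ≤ A := fun b hb =>
    (hσle b hb).trans ((Nat.sub_le _ _).trans (hm'A j0))
  have hσcard : ∀ b < y, σ b ≤ d b := by
    intro b hb
    rcases Nat.lt_or_ge (b + 1) y with h | h
    · have h6 := hσM b hb
      rcases Nat.lt_or_ge (b + 2) y with h7 | h7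
      · have := hd2 b (by omega)
        omega
      · have e1 : b = y - 2 := by omega
        rw [e1] at h6 ⊢
        omega
    · have h5 : b = y - 1 := by omega
      rw [h5, hσlast]
      exact Nat.zero_le _
  obtain ⟨t, i, hti, hrow⟩ := core_finset
    (fun hM hB hA μ hanti hμ s h1 h2 h3 hs => core hM hB hA μ hanti hμ s h1 h2 h3 hs)
    m' S (M := A) (B := y) (A := Q) hA hy hQ hm'A
    (fun b => d b - σ b) (by
      intro b hb
      have hj := hm'A j0
      have h5 := hσ0 b (by omega)
      have h6 := hσ0 (b + 1) (by omega)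
      have h7 := hd1 b hb
      beta_reduce
      rw [h5, h6, h7]
      omega) (by
      intro b hb
      have h5 := hd2 b hb
      have h6 := hσmono b hb
      have h7 := hσcard (b + 1) (by omega)
      beta_reduce
      omega) (by
      have h6 := hσM (y - 2) (by omega)
      beta_reduce
      rw [hσlast]
      omega) (by
      have h5 : ∑ b ∈ Finset.range y, (d b - σ b) + ∑ b ∈ Finset.range y, σ b =
          ∑ b ∈ Finset.range y, d b := by
        rw [← Finset.sum_add_distrib]
        apply Finset.sum_congr rfl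
        intro b hb
        exact Nat.sub_add_cancel (hσcard b (Finset.mem_range.mp hb))
      rw [hσsum, ← hT] at h5
      omega)
  have hcert : Cert m (insert j0 S) y D := by
    refine cert_of_states (t := fun j => if j ∈ S then t j else if j = j0 then y - 2 else 0)
      (i := fun j => if j ∈ S then i j else if j = j0 then y - 2 else 0) ?_ ?_
    · intro j hj
      beta_reduce
      split_ifs with h5 h6
      · exact hti j h5
      · omega
      · omega
    · intro b hb
      beta_reduce
      rw [Finset.sum_insert hj0, if_neg hj0, if_neg hj0, if_pos rfl]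
      have h5 : ∑ j ∈ S, (m j - Pool.Agent.Lib.MP_6b2d39_ag.rk
          (if j ∈ S then t j else if j = j0 then y - 2 else 0)
          (if j ∈ S then i j else if j = j0 then y - 2 else 0) b) =
          ∑ j ∈ S, (m' j - Pool.Agent.Lib.MP_6b2d39_ag.rk (t j) (i j) b) := by
        apply Finset.sum_congr rfl
        intro j hj
        rw [if_pos hj, if_pos hj, hm'J j (hSJ hj)]
      rw [h5, hrow b hb]
      have h6 := hσle b hb
      rw [hm'J j0 hj0J] at h6
      have h7 := hσcard b hb
      have h8 := hdD b hb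
      omega
  exact cert_sub (Finset.insert_subset hj0J hSJ) hcert

end Pool.Agent.Lib.MP_6b2d39_agUe
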