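import Pool.Agent.Lib.MP_6b2d39_agUe.EmptyE

/-!
THEOREM EX: no exceptional degree, two scales.
-/

set_option autoImplicit false

namespace Pool.Agent.Lib.MP_6b2d39_agUe

open Pool.Agent.Lib.MP_6b2d39_agArr Pool.Agent.Lib.MP_6b2d39_agUn Pool.Agent.Lib.MP_6b2d39_agNw
  Pool.Agent.Lib.MP_6b2d39_agHl Pool.Agent.Lib.MP_6b2d39_agCr

private theorem maine_sum {n k : ℕ} (μ : Fin n → ℕ) :
    ∑ i, (Fin.append μ (fun _ : Fin k => 1) i) ^ 2 = ∑ i, μ i ^ 2 + k := by
  rw [Fin.sum_univ_add]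
  simp

private theorem maine_sum_le {n k m : ℕ} (hm : 1 ≤ m) (μ : Fin n → ℕ) :
    ∑ i ∈ Finset.univ.filter (fun i => Fin.append μ (fun _ : Fin k => 1) i ≤ m),
      (Fin.append μ (fun _ : Fin k => 1) i) ^ 2 =
    ∑ i ∈ Finset.univ.filter (fun i => μ i ≤ m), μ i ^ 2 + k := by
  rw [Finset.sum_filter, Finset.sum_filter, Fin.sum_univ_add]
  simp [hm]

private theorem maine_num {B S T k : ℕ} (hS : 0 < S) (hTS : T ≤ S) (h : B * S ≤ T ^ 2) :
    B * (S + k) ≤ (T + k) ^ 2 := by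
  have h1 : B ≤ T := by
    by_contra hc
    push Not at hc
    have h2 : T * S < B * S := Nat.mul_lt_mul_of_pos_right hc hS
    have h3 : T ^ 2 ≤ T * S := by
      rw [sq]
      exact Nat.mul_le_mul_left T hTS
    omega
  nlinarith [Nat.mul_le_mul_right k h1]

/-- E9 (THEOREM EX). `vd d μ ≤ 0`: `empty_e`. `v = vd d μ > 0`: `empty_e` for
`Fin.append μ (fun _ : Fin v.toNat => 1)` (`vd_append`; the sums `S`, `SA` grow by `v`, and
`10 ^ 6 M ^ 2 A v ≤ SA v` because `10 ^ 6 M ^ 2 A S ≤ SA ^ 2 ≤ SA S`), then `app_u` with `c = 1`. -/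
theorem exact_e {n A M : ℕ} {μ : Fin n → ℕ} (hA : 1 ≤ A) (hAM : A ≤ M) (hμ : ∀ i, μ i ≤ M)
    (h0 : 0 < ∑ i, μ i ^ 2)
    (h : 10 ^ 6 * M ^ 2 * A * ∑ i, μ i ^ 2 ≤
      (∑ i ∈ Finset.univ.filter (fun i => μ i ≤ A), μ i ^ 2) ^ 2) (d : ℕ) :
    General (fun P => (Module.finrank ℂ (curves d μ P) : ℤ) = max (vd d μ) 0) := by
  rcases le_or_gt (vd d μ) 0 with hv | hv
  · rw [max_eq_right hv]
    exact empty_e hA hAM hμ h0 h hv
  · have e1 : ((1 + 1).choose 2 : ℕ) = 1 := by decide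
    have hv0 : vd d (Fin.append μ (fun _ : Fin (vd d μ).toNat => 1)) = 0 := by
      rw [vd_append, e1, Int.toNat_of_nonneg hv.le]
      push_cast
      ring
    refine app_u (k := (vd d μ).toNat) (c := 1) μ hv0.ge ?_
    rw [hv0, max_self]
    refine empty_e hA hAM (fun i => ?_) ?_ ?_ hv0.le
    · induction i using Fin.addCases with
      | left i => rw [Fin.append_left]; exact hμ i
      | right i => rw [Fin.append_right]; exact hA.trans hAM
    · rw [maine_sum]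
      exact Nat.add_pos_left h0 _
    · rw [maine_sum, maine_sum_le hA]
      exact maine_num h0
        (Finset.sum_le_sum_of_subset (Finset.filter_subset _ _)) h

end Pool.Agent.Lib.MP_6b2d39_agUe
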